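import Mathlib

set_option autoImplicit false

namespace Pool.Agent.Lib.PD7c5de

open StateTransition Turing

/-- Binary successor. -/
def succB : List Bool → List Bool
  | [] => [true]
  | false :: l => true :: l
  | true :: l => false :: succB l

/-- Binary digits, least significant first. -/
def bitsB : ℕ → List Bool
  | 0 => []
  | n + 1 => succB (bitsB n)

theorem primrec_succB : Primrec succB := by
  have h : Primrec (fun l : List Bool => (List.recOn l [true]
      (fun b l IH => cond b (false :: IH) (true :: l)) : List Bool)) := by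
    refine Primrec.list_rec (f := fun l : List Bool => l) (g := fun _ => [true])
      (h := fun _ p => cond p.1 (false :: p.2.2) (true :: p.2.1)) Primrec.id
      (Primrec.const _) ?_
    refine Primrec.cond (Primrec.fst.comp Primrec.snd) ?_ ?_
    · exact Primrec.list_cons.comp (Primrec.const false)
        (Primrec.snd.comp (Primrec.snd.comp Primrec.snd))
    · exact Primrec.list_cons.comp (Primrec.const true)
        (Primrec.fst.comp (Primrec.snd.comp Primrec.snd))
  refine h.of_eq ?_
  intro l
  induction l with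
  | nil => rfl
  | cons b l ih =>
    cases b
    · rfl
    · simp only [succB, cond_true]
      rw [← ih]

theorem primrec_bitsB : Primrec bitsB := by
  have h : Primrec (fun n : ℕ => (Nat.rec [] (fun _ IH => succB IH) n : List Bool)) := by
    refine Primrec.nat_rec' (f := fun n : ℕ => n) (g := fun _ => ([] : List Bool))
      (h := fun _ p => succB p.2) Primrec.id (Primrec.const _) ?_
    exact primrec_succB.comp (Primrec.snd.comp Primrec.snd)
  refine h.of_eq ?_
  intro n
  induction n with
  | zero => rfl
  | succ n ih =>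
    simp only [bitsB]
    rw [← ih]

/-- The symbol of a bit. -/
def bitSym (b : Bool) : PartrecToTM2.Γ' := cond b PartrecToTM2.Γ'.bit1 PartrecToTM2.Γ'.bit0

theorem trPosNum_succ (p : PosNum) (l : List Bool) (h : PartrecToTM2.trPosNum p = l.map bitSym) :
    PartrecToTM2.trPosNum p.succ = (succB l).map bitSym := by
  induction p generalizing l with
  | one =>
    rcases l with _ | ⟨b, l⟩
    · simp [PartrecToTM2.trPosNum] at h
    · simp only [PartrecToTM2.trPosNum, List.map_cons, List.cons.injEq, List.map_eq_nil_iff,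
        List.nil_eq] at h
      obtain ⟨h1, rfl⟩ := h
      cases b
      · simp [bitSym] at h1
      · rfl
  | bit1 p ih =>
    rcases l with _ | ⟨b, l⟩
    · simp [PartrecToTM2.trPosNum] at h
    · simp only [PartrecToTM2.trPosNum, List.map_cons, List.cons.injEq] at h
      obtain ⟨h1, h2⟩ := h
      cases b
      · simp [bitSym] at h1
      · simp only [PosNum.succ, PartrecToTM2.trPosNum, succB, List.map_cons, ih l h2]
        rfl
  | bit0 p ih =>
    rcases l with _ | ⟨b, l⟩
    · simp [PartrecToTM2.trPosNum] at h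
    · simp only [PartrecToTM2.trPosNum, List.map_cons, List.cons.injEq] at h
      obtain ⟨h1, h2⟩ := h
      cases b
      · simp only [PosNum.succ, PartrecToTM2.trPosNum, succB, List.map_cons, h2]
        rfl
      · simp [bitSym] at h1

theorem trNat_eq (n : ℕ) : PartrecToTM2.trNat n = (bitsB n).map bitSym := by
  induction n with
  | zero => simp [bitsB]
  | succ n ih =>
    simp only [PartrecToTM2.trNat, Nat.cast_succ, Num.add_one, bitsB] at ih ⊢
    rcases h : (n : Num) with _ | p
    · rw [h] at ih
      have : bitsB n = [] := by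
        simpa [PartrecToTM2.trNum] using ih.symm
      rw [this]
      rfl
    · rw [h] at ih
      exact trPosNum_succ p _ ih

/-- A universal-like partial recursive function. -/
def univF (n : ℕ) : Part ℕ := (Denumerable.ofNat Nat.Partrec.Code n).eval 0

theorem partrec_univF : Partrec univF :=
  Nat.Partrec.Code.eval_part.comp (Primrec.ofNat _).to_comp (Computable.const 0)

theorem univF_undecidable : ¬ ComputablePred (fun n : ℕ => (univF n).Dom) := by
  intro h
  apply ComputablePred.halting_problem 0
  obtain ⟨f, hf, he⟩ := ComputablePred.computable_iff.1 h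
  refine ComputablePred.computable_iff.2 ⟨fun c => f (Encodable.encode c),
    hf.comp Computable.encode, ?_⟩
  funext c
  have := congrFun he (Encodable.encode c)
  simp only [univF, Denumerable.ofNat_encode] at this
  exact this

theorem exists_toPartrec : ∃ c : ToPartrec.Code, ∀ n : ℕ, (c.eval [n]).Dom ↔ (univF n).Dom := by
  have h1 : @Nat.Partrec' 1 (fun v => univF v.head) := Nat.Partrec'.part_iff₁.2 partrec_univF
  obtain ⟨c, hc⟩ := ToPartrec.Code.exists_code h1
  refine ⟨c, fun n => ?_⟩
  have := hc ⟨[n], rfl⟩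
  simp only at this
  rw [this]
  simp only [List.Vector.head]
  constructor
  · intro h
    exact h
  · intro h
    exact h

instance : Fintype PartrecToTM2.K' :=
  ⟨{.main, .rev, .aux, .stack}, by intro x; cases x <;> simp⟩

/-- Labels of the stack machine. -/
abbrev Lab := PartrecToTM2.Λ'

/-- Stack alphabets. -/
abbrev GG : PartrecToTM2.K' → Type := fun _ => PartrecToTM2.Γ'

/-- Internal memory of the stack machine. -/
abbrev Sg := Option PartrecToTM2.Γ'

/-- The start label. -/
@[instance_reducible]
def inhLab (c : ToPartrec.Code) : Inhabited Lab :=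
  ⟨PartrecToTM2.trNormal c PartrecToTM2.Cont'.halt⟩

theorem tm2_dom (c : ToPartrec.Code) (n : ℕ) :
    (@TM2.eval PartrecToTM2.K' GG Lab Sg (inhLab c) _ _ PartrecToTM2.tr PartrecToTM2.K'.main
      (PartrecToTM2.trList [n])).Dom ↔ (c.eval [n]).Dom := by
  have h := PartrecToTM2.tr_eval c [n]
  have e : (@TM2.init PartrecToTM2.K' GG Lab Sg (inhLab c) _ _ PartrecToTM2.K'.main
      (PartrecToTM2.trList [n])) = PartrecToTM2.init c [n] := by
    unfold TM2.init PartrecToTM2.init
    congr 1
    funext k
    cases k <;> rfl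
  unfold TM2.eval
  rw [e]
  have h2 : (StateTransition.eval (TM2.step PartrecToTM2.tr) (PartrecToTM2.init c [n])).Dom ↔
    (c.eval [n]).Dom := by
    rw [h]
    rfl
  exact h2

/-- The single-tape machine simulating the stack machine. -/
noncomputable def m1 : TM2to1.Λ' PartrecToTM2.K' GG Lab Sg →
    TM1.Stmt (TM2to1.Γ' PartrecToTM2.K' GG) (TM2to1.Λ' PartrecToTM2.K' GG Lab Sg) Sg :=
  TM2to1.tr PartrecToTM2.tr

theorem restrict_dom {Γ Λ : Type} [Inhabited Γ] [Inhabited Λ] (M : TM0.Machine Γ Λ)
    (S : Finset Λ) (hS : TM0.Supports M (S : Set Λ)) :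
    ∃ (Λ' : Type) (_ : Inhabited Λ') (_ : Finite Λ') (M' : TM0.Machine Γ Λ'),
      ∀ l, (TM0.eval M' l).Dom ↔ (TM0.eval M l).Dom := by
  classical
  let i0 : Inhabited {q // q ∈ S} := ⟨⟨default, hS.1⟩⟩
  refine ⟨{q // q ∈ S}, i0, inferInstance, ?_⟩
  let f : PointedMap Γ Γ := ⟨id, rfl⟩
  let g1 : PointedMap Λ {q // q ∈ S} :=
    ⟨fun q => if h : q ∈ S then ⟨q, h⟩ else default, by
      have : (default : Λ) ∈ S := hS.1
      simp only [this, dite_true]
      rfl⟩
  let g2 : {q // q ∈ S} → Λ := Subtype.val
  refine ⟨TM0.Machine.map M f f g1 g2, fun l => ?_⟩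
  have hr := TM0.Machine.map_respects M f f g1 g2 (S := (S : Set Λ)) hS (fun x => rfl)
    (by
      intro q hq
      have hq' : q ∈ S := hq
      show g2 (g1.f q) = q
      simp only [g1, g2, hq', dite_true])
  have hi : (TM0.Cfg.map f g1 (TM0.init l : TM0.Cfg Γ Λ)) = TM0.init l := by
    rw [TM0.map_init f g1 l]
    congr 1
    exact List.map_id l
  have := tr_eval_dom hr (a₁ := (TM0.init l : TM0.Cfg Γ Λ)) (a₂ := TM0.init l) ⟨hS.1, hi⟩
  simpa [TM0.eval] using this

/-- The translation of a bit to the single-tape alphabet. -/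
def cellOf (a : PartrecToTM2.Γ') : TM2to1.Γ' PartrecToTM2.K' GG :=
  (false, Function.update (fun _ => none) PartrecToTM2.K'.main (some a))

theorem trInit_eq (n : ℕ) :
    TM2to1.trInit (Γ := GG) PartrecToTM2.K'.main (PartrecToTM2.trList [n]) =
      (true, (cellOf PartrecToTM2.Γ'.cons).2) ::
        (bitsB n).reverse.map (fun b => cellOf (bitSym b)) := by
  have h : (PartrecToTM2.trList [n]).reverse =
      PartrecToTM2.Γ'.cons :: (bitsB n).reverse.map bitSym := by
    simp [PartrecToTM2.trList, trNat_eq]
  have h2 : TM2to1.trInit (Γ := GG) PartrecToTM2.K'.main (PartrecToTM2.trList [n]) =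
      (true, (cellOf PartrecToTM2.Γ'.cons).2) ::
        ((bitsB n).reverse.map bitSym).map cellOf := by
    unfold TM2to1.trInit
    simp only [h]
    rfl
  rw [h2]
  have h3 : ∀ l : List Bool, (l.map bitSym).map cellOf = l.map (fun b => cellOf (bitSym b)) := by
    intro l
    rw [List.map_map]
    rfl
  exact congrArg _ (h3 _)

theorem exists_tm0 : ∃ (Γ Λ : Type) (_ : Inhabited Γ) (_ : Inhabited Λ) (_ : Finite Γ)
    (_ : Finite Λ) (M : TM0.Machine Γ Λ) (s : Γ) (F : Bool → Γ),
    ∀ n, (TM0.eval M (s :: (bitsB n).reverse.map F)).Dom ↔ (univF n).Dom := by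
  obtain ⟨c, hc⟩ := exists_toPartrec
  letI := inhLab c
  have s2 : TM2.Supports PartrecToTM2.tr (PartrecToTM2.codeSupp c PartrecToTM2.Cont'.halt) :=
    PartrecToTM2.tr_supports c PartrecToTM2.Cont'.halt
  have s1 := TM2to1.tr_supports (K := PartrecToTM2.K') (Γ := GG) PartrecToTM2.tr s2
  have s0 := TM1to0.tr_supports (TM2to1.tr (K := PartrecToTM2.K') (Γ := GG) PartrecToTM2.tr) s1
  obtain ⟨Λ', i', f', M', hM'⟩ := restrict_dom _ _ s0
  refine ⟨TM2to1.Γ' PartrecToTM2.K' GG, Λ', inferInstance, i', inferInstance, f', M',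
    (true, (cellOf PartrecToTM2.Γ'.cons).2), fun b => cellOf (bitSym b), fun n => ?_⟩
  have e1 := hM' (TM2to1.trInit (Γ := GG) PartrecToTM2.K'.main (PartrecToTM2.trList [n]))
  rw [TM1to0.tr_eval] at e1
  have e1' := TM2to1.tr_eval_dom (K := PartrecToTM2.K') (Γ := GG) PartrecToTM2.tr
    PartrecToTM2.K'.main (PartrecToTM2.trList [n])
  have e2 := ((e1.trans e1').trans (tm2_dom c n)).trans (hc n)
  have e3 := trInit_eq n
  rw [e3] at e2
  exact e2

end Pool.Agent.Lib.PD7c5de
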