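import Mathlib

set_option autoImplicit false

namespace Pool.Agent.Lib.PD7c5de

open StateTransition

/-- Two words are comparable when one of them is a prefix of the other. -/
def Cmp {α : Type*} (u v : List α) : Prop := u <+: v ∨ v <+: u

theorem Cmp.append_left_iff {α : Type*} (p u v : List α) : Cmp (p ++ u) (p ++ v) ↔ Cmp u v := by
  simp [Cmp, List.prefix_append_right_inj]

theorem Cmp.symm {α : Type*} {u v : List α} (h : Cmp u v) : Cmp v u := Or.symm h

theorem Cmp.of_append {α : Type*} {u v u' v' : List α} (h : Cmp (u ++ u') (v ++ v')) : Cmp u v := by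
  rcases h with h | h
  · have h1 : u <+: v ++ v' := (List.prefix_append u u').trans h
    exact List.prefix_or_prefix_of_prefix h1 (List.prefix_append v v')
  · have h1 : v <+: u ++ u' := (List.prefix_append v v').trans h
    exact (List.prefix_or_prefix_of_prefix (List.prefix_append u u') h1)

theorem not_cmp_of_head {α : Type*} {a b : α} {u v : List α} (h : a ≠ b) :
    ¬ Cmp (a :: u) (b :: v) := by
  rintro (h1 | h1)
  · exact h (List.cons_prefix_cons.1 h1).1
  · exact h (List.cons_prefix_cons.1 h1).1.symm

theorem cmp_cons_iff {α : Type*} {a : α} {u v : List α} :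
    Cmp (a :: u) (a :: v) ↔ Cmp u v := by
  simp [Cmp]

section generic

variable {X C : Type*} (h g : X → List ℕ) (x0 xe : X) (f : C → Option C)
  (ov : C → List ℕ) (ltr : C → X) (c0 : C) (Good : C → Prop)

/-- The data of a deterministic run encoded in a pair of morphisms. -/
structure RunData : Prop where
  good0 : Good c0
  ov_ne : ∀ c, Good c → ov c ≠ []
  step_good : ∀ c c', Good c → f c = some c' → Good c'
  step_ov : ∀ c c', Good c → f c = some c' → h (ltr c) ++ ov c' = ov c ++ g (ltr c)
  step_none : ∀ c, Good c → f c = none → h (ltr c) = ov c ++ g (ltr c)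
  uniq : ∀ c x, Good c → x ≠ ltr c → ¬ Cmp (h x) (ov c ++ g x)
  start : g x0 = h x0 ++ ov c0
  start_ne : ∀ x, x ≠ x0 → x ≠ xe → ¬ Cmp (h x) (g x)
  ge : g xe = []
  he : h xe ≠ []
  ne_e : ∀ x, x ≠ xe → ∀ w, ¬ Cmp (h xe ++ w) (g x)

variable {h g x0 xe f ov ltr c0 Good}

/-- Classification of the partial solutions. -/
theorem RunData.classify (D : RunData h g x0 xe f ov ltr c0 Good) (u : List X) :
    Cmp (u.flatMap h) (u.flatMap g) →
      (u.flatMap h = u.flatMap g) ∨
      (∃ k, u.flatMap h = u.flatMap g ++ (h xe ++ (List.replicate k xe).flatMap h)) ∨
      (∃ c, Reaches f c0 c ∧ Good c ∧ u.flatMap g = u.flatMap h ++ ov c) := by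
  induction u using List.reverseRecOn with
  | nil => intro _; left; rfl
  | append_singleton u x ih =>
    intro hc
    simp only [List.flatMap_append, List.flatMap_cons, List.flatMap_nil, List.append_nil] at hc ⊢
    rcases ih hc.of_append with he | ⟨k, hk⟩ | ⟨c, hr, hg, hcv⟩
    · rw [he, Cmp.append_left_iff] at hc
      by_cases hx0 : x = x0
      · subst hx0
        right; right
        exact ⟨c0, Relation.ReflTransGen.refl, D.good0, by rw [he, D.start, List.append_assoc]⟩
      · by_cases hxe : x = xe
        · subst hxe
          right; left
          exact ⟨0, by rw [he, D.ge]; simp⟩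
        · exact absurd hc (D.start_ne x hx0 hxe)
    · rw [hk, List.append_assoc, Cmp.append_left_iff] at hc
      by_cases hxe : x = xe
      · subst hxe
        right; left
        refine ⟨k + 1, ?_⟩
        rw [hk, D.ge, List.replicate_succ']
        simp
      · rw [List.append_assoc] at hc
        exact absurd hc (D.ne_e x hxe _)
    · rw [hcv, List.append_assoc, Cmp.append_left_iff] at hc
      by_cases hx : x = ltr c
      · subst hx
        rcases hf : f c with _ | c'
        · left
          rw [hcv, D.step_none c hg hf]
          simp
        · right; right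
          refine ⟨c', hr.tail hf, D.step_good c c' hg hf, ?_⟩
          rw [hcv, List.append_assoc, List.append_assoc, D.step_ov c c' hg hf]
      · exact absurd hc (D.uniq c x hg hx)

theorem RunData.unique (D : RunData h g x0 xe f ov ltr c0 Good) (u : List X) (a b : X)
    (hab : a ≠ b) (ha : Cmp ((u ++ [a]).flatMap h) ((u ++ [a]).flatMap g))
    (hb : Cmp ((u ++ [b]).flatMap h) ((u ++ [b]).flatMap g)) :
    u.flatMap h = u.flatMap g := by
  simp only [List.flatMap_append, List.flatMap_cons, List.flatMap_nil, List.append_nil] at ha hb
  rcases D.classify u ha.of_append with he | ⟨k, hk⟩ | ⟨c, hr, hg, hcv⟩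
  · exact he
  · exfalso
    rw [hk, List.append_assoc, Cmp.append_left_iff, List.append_assoc] at ha hb
    have h1 : a = xe := by
      by_contra hne
      exact D.ne_e a hne _ ha
    have h2 : b = xe := by
      by_contra hne
      exact D.ne_e b hne _ hb
    exact hab (h1.trans h2.symm)
  · exfalso
    rw [hcv, List.append_assoc, Cmp.append_left_iff] at ha hb
    have h1 : a = ltr c := by
      by_contra hne
      exact D.uniq c a hg hne ha
    have h2 : b = ltr c := by
      by_contra hne
      exact D.uniq c b hg hne hb
    exact hab (h1.trans h2.symm)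

theorem RunData.word_of_reaches (D : RunData h g x0 xe f ov ltr c0 Good) (c : C)
    (hr : Reaches f c0 c) : Good c ∧ ∃ u : List X, u.flatMap g = u.flatMap h ++ ov c := by
  induction hr with
  | refl => exact ⟨D.good0, [x0], by simp [D.start]⟩
  | tail hab hbc ih =>
    rename_i b c
    obtain ⟨hg, u, hu⟩ := ih
    refine ⟨D.step_good b c hg hbc, u ++ [ltr b], ?_⟩
    simp only [List.flatMap_append, List.flatMap_cons, List.flatMap_nil, List.append_nil]
    rw [hu, List.append_assoc, List.append_assoc, D.step_ov b c hg hbc]

theorem RunData.solvable_iff (D : RunData h g x0 xe f ov ltr c0 Good) :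
    (∃ u : List X, u ≠ [] ∧ u.flatMap h = u.flatMap g) ↔ (eval f c0).Dom := by
  constructor
  · rintro ⟨u, hu, he⟩
    induction u using List.reverseRecOn with
    | nil => exact absurd rfl hu
    | append_singleton u x ih =>
      have hc : Cmp ((u ++ [x]).flatMap h) ((u ++ [x]).flatMap g) := Or.inl (by rw [he])
      simp only [List.flatMap_append, List.flatMap_cons, List.flatMap_nil, List.append_nil]
        at hc he
      rcases D.classify u hc.of_append with he' | ⟨k, hk⟩ | ⟨c, hr, hg, hcv⟩
      · rw [he', List.append_cancel_left_eq] at he
        exfalso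
        by_cases hx0 : x = x0
        · subst hx0
          have := D.start
          rw [← he] at this
          have h2 := D.ov_ne c0 D.good0
          apply h2
          simpa using this
        · by_cases hxe : x = xe
          · subst hxe
            rw [D.ge] at he
            exact D.he he
          · exact D.start_ne x hx0 hxe (by rw [he]; exact Or.inl (List.prefix_refl _))
      · exfalso
        rw [hk, List.append_assoc, List.append_assoc, List.append_cancel_left_eq] at he
        by_cases hxe : x = xe
        · subst hxe
          rw [D.ge] at he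
          have := congrArg List.length he
          have h3 := D.he
          rw [← List.length_pos_iff] at h3
          simp at this
          exact D.he this.1
        · apply D.ne_e x hxe
          rw [he]
          exact Or.inl (List.prefix_refl _)
      · rw [hcv, List.append_assoc, List.append_cancel_left_eq] at he
        by_cases hx : x = ltr c
        · subst hx
          rcases hf : f c with _ | c'
          · rw [Part.dom_iff_mem]
            exact ⟨c, mem_eval.2 ⟨hr, hf⟩⟩
          · exfalso
            have h1 := D.step_ov c c' hg hf
            rw [← he] at h1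
            have h2 := D.ov_ne c' (D.step_good c c' hg hf)
            apply h2
            simpa using h1
        · exfalso
          apply D.uniq c x hg hx
          rw [he]
          exact Or.inl (List.prefix_refl _)
  · intro hd
    rw [Part.dom_iff_mem] at hd
    obtain ⟨c, hc⟩ := hd
    obtain ⟨hr, hf⟩ := mem_eval.1 hc
    obtain ⟨hg, u, hu⟩ := D.word_of_reaches c hr
    refine ⟨u ++ [ltr c], by simp, ?_⟩
    simp only [List.flatMap_append, List.flatMap_cons, List.flatMap_nil, List.append_nil]
    rw [hu, List.append_assoc, D.step_none c hg hf]

end generic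

end Pool.Agent.Lib.PD7c5de
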