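import Mathlib

set_option autoImplicit false

namespace Pool.Agent.Lib.PD7c5de

open StateTransition Turing

/-- Symbols of the queue machine. -/
inductive Sym (Γ Λ : Type)
  | pl (s : Γ) : Sym Γ Λ
  | hd (q : Λ) (s : Γ) : Sym Γ Λ
  | mark : Sym Γ Λ
  | J : Sym Γ Λ
  | K : Sym Γ Λ

/-- States of the queue machine; the final erasing state is `none` of `Option (St Γ Λ)`. -/
inductive St (Γ Λ : Type)
  | hold (p : Sym Γ Λ) : St Γ Λ
  | mr (s : Γ) (q : Λ) : St Γ Λ
  | E1 : St Γ Λ

open Pool.Agent.Lib.PD7c5de.Sym Pool.Agent.Lib.PD7c5de.St

variable {Γ Λ : Type} [Inhabited Γ] [Inhabited Λ]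

/-- Transition when reading a head symbol while holding `p`. -/
def tauHead (p : Sym Γ Λ) (s : Γ) : Option (Λ × TM0.Stmt Γ) → List (Sym Γ Λ) × Option (St Γ Λ)
  | none => ([J, K], some E1)
  | some (q', TM0.Stmt.write b) => ([p], some (hold (hd q' b)))
  | some (q', TM0.Stmt.move Dir.right) => ([p], some (mr s q'))
  | some (q', TM0.Stmt.move Dir.left) =>
    match p with
    | mark => ([mark, hd q' default], some (hold (pl s)))
    | pl l => ([hd q' l], some (hold (pl s)))
    | p => ([p], some (hold (pl s)))

/-- Transition function: output and new state. -/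
def tau (M : TM0.Machine Γ Λ) : St Γ Λ → Sym Γ Λ → List (Sym Γ Λ) × Option (St Γ Λ)
  | hold p, hd q s => tauHead p s (M q s)
  | hold p, x => ([p], some (hold x))
  | mr s q', pl r => ([pl s], some (hold (hd q' r)))
  | mr s q', mark => ([pl s, hd q' default], some (hold mark))
  | mr s _, x => ([pl s], some (hold x))
  | E1, K => ([K], none)
  | E1, _ => ([J], some E1)

theorem tau_ne_nil (M : TM0.Machine Γ Λ) (q : St Γ Λ) (a : Sym Γ Λ) : (tau M q a).1 ≠ [] := by
  cases q with
  | hold p =>
    cases a with
    | hd q s =>
      simp only [tau]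
      rcases M q s with _ | ⟨q', (_ | _) | b⟩
      · simp [tauHead]
      · cases p <;> simp [tauHead]
      · simp [tauHead]
      · simp [tauHead]
    | _ => simp [tau]
  | mr s q' => cases a <;> simp [tau]
  | E1 => cases a <;> simp [tau]

/-- Configurations: state (where `none` is the erasing state) and queue. -/
abbrev Conf (Γ Λ : Type) := Option (St Γ Λ) × List (Sym Γ Λ)

/-- One step of the queue machine. -/
def qstep (M : TM0.Machine Γ Λ) : Conf Γ Λ → Option (Conf Γ Λ)
  | (some q, a :: w) => some ((tau M q a).2, w ++ (tau M q a).1)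
  | (none, _ :: J :: w) => some (none, J :: w)
  | _ => none

/-- Is the configuration at a halting head symbol? -/
def haltingConf (M : TM0.Machine Γ Λ) : Conf Γ Λ → Bool
  | (some (hold _), hd q s :: _) => (M q s).isNone
  | _ => false

/-- The step function which stops at a halting head symbol. -/
def qstep' (M : TM0.Machine Γ Λ) (c : Conf Γ Λ) : Option (Conf Γ Λ) :=
  if haltingConf M c then none else qstep M c

/-- The symbol is not a head symbol. -/
def NotHd : Sym Γ Λ → Prop
  | hd _ _ => False
  | _ => True

theorem notHd_mem_plain (R L : List Γ) :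
    ∀ y ∈ (R.map pl ++ mark :: L.reverse.map pl : List (Sym Γ Λ)), NotHd y := by
  intro y hy
  simp only [List.mem_append, List.mem_map, List.mem_cons, List.mem_reverse] at hy
  rcases hy with ⟨x, _, rfl⟩ | rfl | ⟨x, _, rfl⟩ <;> simp [NotHd]

theorem qstep'_hold (M : TM0.Machine Γ Λ) (x y : Sym Γ Λ) (w : List (Sym Γ Λ)) (hy : NotHd y) :
    qstep' M (some (hold x), y :: w) = some (some (hold y), w ++ [x]) := by
  cases y <;> simp_all [qstep', haltingConf, qstep, tau, NotHd]

/-- Rotation of a block without head symbols. -/
theorem rotate (M : TM0.Machine Γ Λ) (u : List (Sym Γ Λ)) : ∀ (x : Sym Γ Λ) (v : List (Sym Γ Λ)),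
    (∀ y ∈ u, NotHd y) →
    Reaches (qstep' M) (some (hold x), u ++ v)
      (some (hold ((x :: u).getLast (by simp))), v ++ (x :: u).dropLast) := by
  induction u with
  | nil => intro x v _; simp; exact Relation.ReflTransGen.refl
  | cons y u ih =>
    intro x v hu
    have h1 := ih y (v ++ [x]) (fun z hz => hu z (by simp [hz]))
    refine Relation.ReflTransGen.head (b := (some (hold y), u ++ v ++ [x])) ?_ ?_
    · have := qstep'_hold M x y (u ++ v) (hu y (by simp))
      simpa using this
    · have e1 : u ++ v ++ [x] = u ++ (v ++ [x]) := by simp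
      have e2 : v ++ (x :: y :: u).dropLast = (v ++ [x]) ++ (y :: u).dropLast := by
        simp [List.dropLast]
      have e3 : (x :: y :: u).getLast (by simp) = (y :: u).getLast (by simp) := by
        simp [List.getLast_cons]
      rw [e1, e2, e3]
      exact h1

/-- The relation between TM configurations and queue configurations: the head symbol is at the
front, and the held symbol is the symbol cyclically preceding it. -/
def Rel (c : TM0.Cfg Γ Λ) (C : Conf Γ Λ) : Prop :=
  ∃ (L R : List Γ) (s : Γ) (p : Sym Γ Λ) (w : List (Sym Γ Λ)),
    c.Tape = Tape.mk' (ListBlank.mk L) ((ListBlank.mk R).cons s) ∧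
    C = (some (hold p), hd c.q s :: w) ∧
    w ++ [p] = R.map pl ++ mark :: L.reverse.map pl

theorem append_singleton_inj' {α : Type*} {w u : List α} {p q : α} (h : w ++ [p] = u ++ [q]) :
    w = u ∧ p = q := by
  have := List.append_inj' h (by simp)
  simpa using this

theorem respects (M : TM0.Machine Γ Λ) : Respects (TM0.step M) (qstep' M) Rel := by
  rintro ⟨q, T⟩ C ⟨L, R, s, p, w, hT, rfl, hw⟩
  simp only at hT
  subst hT
  have hhead : (Tape.mk' (ListBlank.mk L) ((ListBlank.mk R).cons s)).head = s := by simp
  simp only [TM0.step]
  have hh2 : (Tape.mk' (ListBlank.mk L) ((ListBlank.mk R).cons s)).1 = s := hhead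
  rw [hh2]
  have hnh : ∀ y ∈ w ++ [p], NotHd y := by
    rw [hw]; exact notHd_mem_plain R L
  rcases hM : M q s with _ | ⟨q', (_ | _) | b⟩
  · simp [qstep', haltingConf, hM]
  · -- move left
    simp only [Option.map_some]
    rcases L with _ | ⟨l, L'⟩
    · -- at the left end
      have hw' : w ++ [p] = R.map pl ++ [mark] := by simpa using hw
      obtain ⟨hw1, hp⟩ := append_singleton_inj' hw'
      subst hp
      refine ⟨(some (hold mark), hd q' default :: pl s :: w), ⟨[], s :: R, default, mark,
        pl s :: w, ?_, rfl, ?_⟩, ?_⟩
      · simp only [Tape.move_left_mk', ListBlank.head_mk, ListBlank.tail_mk, List.headI_nil,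
          List.tail_nil, ListBlank.cons_mk]
      · simp [hw1]
      · have h1 : qstep' M (some (hold mark), hd q s :: w)
            = some (some (hold (pl s)), w ++ [mark, hd q' default]) := by
          simp [qstep', haltingConf, qstep, tau, tauHead, hM]
        refine Relation.TransGen.head' (b := (some (hold (pl s)), w ++ [mark, hd q' default])) h1 ?_
        have h2 := rotate M (w ++ [mark]) (pl s) [hd q' default] hnh
        have e1 : w ++ [mark] ++ [hd q' default] = w ++ [mark, hd q' default] := by simp
        have e2 : (pl s :: (w ++ [mark]) : List (Sym Γ Λ)).getLast (by simp) = mark := by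
          simp
        have e3 : (pl s :: (w ++ [mark]) : List (Sym Γ Λ)).dropLast = pl s :: w := by
          rw [← List.cons_append, List.dropLast_concat]
        rw [e1, e2, e3] at h2
        exact h2
    · have hw' : w ++ [p] = (R.map pl ++ mark :: L'.reverse.map pl) ++ [pl l] := by
        simpa using hw
      obtain ⟨hw1, hp⟩ := append_singleton_inj' hw'
      subst hp
      refine ⟨(some (hold ((pl s :: w).getLast (by simp))), hd q' l :: (pl s :: w).dropLast),
        ⟨L', s :: R, l, _, _, ?_, rfl, ?_⟩, ?_⟩
      · simp only [Tape.move_left_mk', ListBlank.head_mk, ListBlank.tail_mk, List.headI_cons,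
          List.tail_cons, ListBlank.cons_mk]
      · rw [List.dropLast_append_getLast]
        simp [hw1]
      · have h1 : qstep' M (some (hold (pl l)), hd q s :: w)
            = some (some (hold (pl s)), w ++ [hd q' l]) := by
          simp [qstep', haltingConf, qstep, tau, tauHead, hM]
        refine Relation.TransGen.head' (b := (some (hold (pl s)), w ++ [hd q' l])) h1 ?_
        have h2 := rotate M w (pl s) [hd q' l] (fun y hy => hnh y (by simp [hy]))
        simpa [Reaches, Option.mem_def] using h2
  · -- move right
    simp only [Option.map_some]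
    have h1 : qstep' M (some (hold p), hd q s :: w) = some (some (mr s q'), w ++ [p]) := by
      simp [qstep', haltingConf, qstep, tau, tauHead, hM]
    rcases R with _ | ⟨r, R'⟩
    · -- at the right end
      have hw' : w ++ [p] = mark :: L.reverse.map pl := by simpa using hw
      refine ⟨(some (hold (pl s)), hd q' default :: mark :: L.reverse.map pl),
        ⟨s :: L, [], default, pl s, mark :: L.reverse.map pl, ?_, rfl, ?_⟩, ?_⟩
      · simp only [Tape.move_right_mk', ListBlank.head_cons, ListBlank.tail_cons,
          ListBlank.cons_mk]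
        congr 1
        apply Quotient.sound'
        exact Or.inl ⟨1, rfl⟩
      · simp
      · refine Relation.TransGen.head' (b := (some (mr s q'), w ++ [p])) h1 ?_
        rw [hw']
        refine Relation.ReflTransGen.head
          (b := (some (hold mark), L.reverse.map pl ++ [pl s, hd q' default])) ?_ ?_
        · simp [qstep', haltingConf, qstep, tau]
        have h2 := rotate M (L.reverse.map pl ++ [pl s]) mark [hd q' default]
          (by
            intro y hy
            simp only [List.mem_append, List.mem_map, List.mem_singleton] at hy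
            rcases hy with ⟨x, _, rfl⟩ | rfl <;> simp [NotHd])
        have e1 : (L.reverse.map pl ++ [pl s]) ++ [hd q' default]
            = (L.reverse.map pl ++ [pl s, hd q' default] : List (Sym Γ Λ)) := by simp
        have e2 : (mark :: (L.reverse.map pl ++ [pl s]) : List (Sym Γ Λ)).getLast (by simp)
            = pl s := by simp
        have e3 : (mark :: (L.reverse.map pl ++ [pl s]) : List (Sym Γ Λ)).dropLast
            = mark :: L.reverse.map pl := by
          rw [← List.cons_append, List.dropLast_concat]
        rw [e1, e2, e3] at h2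
        exact h2
    · have hw' : w ++ [p] = pl r :: (R'.map pl ++ mark :: L.reverse.map pl) := by simpa using hw
      refine ⟨(some (hold (pl s)), hd q' r :: (R'.map pl ++ mark :: L.reverse.map pl)),
        ⟨s :: L, R', r, pl s, (R'.map pl ++ mark :: L.reverse.map pl), ?_, rfl, ?_⟩, ?_⟩
      · simp only [Tape.move_right_mk', ListBlank.head_cons, ListBlank.tail_cons]
        simp [ListBlank.cons_mk]
      · simp
      · refine Relation.TransGen.head' (b := (some (mr s q'), w ++ [p])) h1 ?_
        rw [hw']
        refine Relation.ReflTransGen.head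
          (b := (some (hold (hd q' r)), (R'.map pl ++ mark :: L.reverse.map pl) ++ [pl s])) ?_ ?_
        · simp [qstep', haltingConf, qstep, tau]
        have h2 := rotate M ((R'.map pl ++ mark :: L.reverse.map pl) ++ [pl s]) (hd q' r) []
          (by
            intro y hy
            rw [List.mem_append] at hy
            rcases hy with hy | hy
            · exact notHd_mem_plain R' L y hy
            · rw [List.mem_singleton] at hy
              subst hy
              simp [NotHd])
        have e2 : (hd q' r :: ((R'.map pl ++ mark :: L.reverse.map pl) ++ [pl s]) :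
            List (Sym Γ Λ)).getLast (by simp) = pl s := by
          simp
        have e3 : (hd q' r :: ((R'.map pl ++ mark :: L.reverse.map pl) ++ [pl s]) :
            List (Sym Γ Λ)).dropLast = hd q' r :: (R'.map pl ++ mark :: L.reverse.map pl) := by
          rw [← List.cons_append, List.dropLast_concat]
        rw [e2, e3] at h2
        simpa [Reaches, Option.mem_def] using h2
  · -- write
    simp only [Option.map_some]
    refine ⟨(some (hold p), hd q' b :: w), ⟨L, R, b, p, w, ?_, rfl, hw⟩, ?_⟩
    · simp only [Tape.write_mk', ListBlank.tail_cons]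
    · have h1 : qstep' M (some (hold p), hd q s :: w)
          = some (some (hold (hd q' b)), w ++ [p]) := by
        simp [qstep', haltingConf, qstep, tau, tauHead, hM]
      refine Relation.TransGen.head' (b := (some (hold (hd q' b)), w ++ [p])) h1 ?_
      have h2 := rotate M (w ++ [p]) (hd q' b) [] hnh
      have e2 : (hd q' b :: (w ++ [p]) : List (Sym Γ Λ)).getLast (by simp) = p := by
        simp
      have e3 : (hd q' b :: (w ++ [p]) : List (Sym Γ Λ)).dropLast = hd q' b :: w := by
        rw [← List.cons_append, List.dropLast_concat]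
      rw [e2, e3] at h2
      simpa [Reaches, Option.mem_def] using h2

/-- Invariant of the configurations that occur. -/
def Good : Conf Γ Λ → Prop
  | (some (hold p), l) => l ≠ [] ∧ K ∉ l ∧ p ≠ K
  | (some (mr _ _), l) => l ≠ [] ∧ K ∉ l
  | (some E1, l) => ∃ u j, l = u ++ K :: List.replicate j J ∧ K ∉ u ∧ 1 ≤ u.length + j
  | (none, l) => ∃ k, l = J :: (List.replicate k J ++ [K])

theorem good_step (M : TM0.Machine Γ Λ) (c c' : Conf Γ Λ) (hc : Good c)
    (h : qstep M c = some c') : Good c' := by
  rcases c with ⟨_ | q, l⟩
  · obtain ⟨k, rfl⟩ := hc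
    rcases k with _ | k
    · simp [qstep] at h
    · simp only [List.replicate_succ, List.cons_append, qstep, Option.some.injEq] at h
      subst h
      exact ⟨k, rfl⟩
  · rcases l with _ | ⟨a, w⟩
    · simp [qstep] at h
    simp only [qstep, Option.some.injEq] at h
    subst h
    rcases q with p | ⟨s, q'⟩ | _
    · obtain ⟨-, hK, hp⟩ := hc
      have hKw : K ∉ w := fun hh => hK (by simp [hh])
      cases a with
      | hd q s =>
        simp only [tau]
        rcases hM : M q s with _ | ⟨q', (_ | _) | b⟩
        · refine ⟨w ++ [J], 0, by simp [tauHead], ?_, by simp⟩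
          simp [hKw]
        · cases p <;> simp_all [tauHead, Good]
        · simp only [tauHead, Good]
          refine ⟨by simp, ?_⟩
          simp only [List.mem_append, List.mem_singleton, not_or]
          exact ⟨hKw, fun h => hp h.symm⟩
        · simp only [tauHead, Good]
          refine ⟨by simp, ?_, by simp⟩
          simp only [List.mem_append, List.mem_singleton, not_or]
          exact ⟨hKw, fun h => hp h.symm⟩
      | K => simp at hK
      | _ =>
        simp only [tau, Good]
        refine ⟨by simp, ?_, by simp⟩
        simp only [List.mem_append, List.mem_singleton, not_or]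
        exact ⟨hKw, fun h => hp h.symm⟩
    · obtain ⟨-, hK⟩ := hc
      have hKw : K ∉ w := fun hh => hK (by simp [hh])
      cases a with
      | K => simp at hK
      | _ => simp [tau, Good, hKw]
    · obtain ⟨u, j, he, hu, h1⟩ := hc
      rcases u with _ | ⟨b, u⟩
      · simp only [List.nil_append, List.cons.injEq] at he
        obtain ⟨rfl, rfl⟩ := he
        simp only [List.length_nil, Nat.zero_add] at h1
        obtain ⟨j', rfl⟩ : ∃ j', j = j' + 1 := ⟨j - 1, by omega⟩
        exact ⟨j', by simp [tau, List.replicate_succ]⟩
      · simp only [List.cons_append, List.cons.injEq] at he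
        obtain ⟨rfl, rfl⟩ := he
        have hb : a ≠ K := fun h => hu (by simp [h])
        have ht : tau M E1 a = ([J], some E1) := by
          cases a <;> simp_all [tau]
        rw [ht]
        refine ⟨u, j + 1, ?_, fun h => hu (by simp [h]), by omega⟩
        simp [List.replicate_succ']

theorem reaches_none_terminal (M : TM0.Machine Γ Λ) (k : ℕ) :
    Reaches (qstep M) (none, J :: (List.replicate k J ++ [K])) (none, [J, K]) := by
  induction k with
  | zero => exact Relation.ReflTransGen.refl
  | succ k ih =>
    refine Relation.ReflTransGen.head ?_ ih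
    simp [List.replicate_succ, qstep]

theorem reaches_E1_terminal (M : TM0.Machine Γ Λ) (u : List (Sym Γ Λ)) : ∀ (j : ℕ), K ∉ u →
    1 ≤ u.length + j →
    Reaches (qstep M) (some E1, u ++ K :: List.replicate j J) (none, [J, K]) := by
  induction u with
  | nil =>
    intro j _ hj
    simp only [List.length_nil, Nat.zero_add] at hj
    obtain ⟨j', rfl⟩ : ∃ j', j = j' + 1 := ⟨j - 1, by omega⟩
    refine Relation.ReflTransGen.head (b := (none, J :: (List.replicate j' J ++ [K]))) ?_
      (reaches_none_terminal M j')
    simp [qstep, tau, List.replicate_succ]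
  | cons b u ih =>
    intro j hu hj
    have hb : b ≠ K := fun h => hu (by simp [h])
    have ht : tau M E1 b = ([J], some E1) := by
      cases b <;> simp_all [tau]
    have h2 := ih (j + 1) (fun h => hu (by simp [h])) (by simp at hj ⊢; omega)
    refine Relation.ReflTransGen.head (b := (some E1, u ++ K :: List.replicate (j + 1) J)) ?_ h2
    simp [qstep, ht, List.replicate_succ']

theorem terminal_JK (M : TM0.Machine Γ Λ) : qstep M (none, [J, K]) = none := by
  simp [qstep]

theorem qstep_eq_none (M : TM0.Machine Γ Λ) (c : Conf Γ Λ) (hc : Good c)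
    (h : qstep M c = none) : c = (none, [J, K]) := by
  rcases c with ⟨_ | q, l⟩
  · obtain ⟨k, rfl⟩ := hc
    rcases k with _ | k
    · simp
    · simp [List.replicate_succ, qstep] at h
  · rcases l with _ | ⟨a, w⟩
    · exfalso
      cases q <;> simp [Good] at hc
    · simp [qstep] at h

theorem good_reaches (M : TM0.Machine Γ Λ) (c c' : Conf Γ Λ) (hc : Good c)
    (h : Reaches (qstep M) c c') : Good c' := by
  induction h with
  | refl => exact hc
  | tail _ hbc ih => exact good_step M _ _ ih hbc

theorem qstep'_some (M : TM0.Machine Γ Λ) (c c' : Conf Γ Λ) (h : qstep' M c = some c') :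
    qstep M c = some c' := by
  unfold qstep' at h
  split_ifs at h
  exact h

theorem reaches_of_reaches' (M : TM0.Machine Γ Λ) (c c' : Conf Γ Λ)
    (h : Reaches (qstep' M) c c') : Reaches (qstep M) c c' := by
  induction h with
  | refl => exact Relation.ReflTransGen.refl
  | tail _ hbc ih => exact ih.tail (qstep'_some M _ _ hbc)

theorem eval_dom_iff (M : TM0.Machine Γ Λ) (c : Conf Γ Λ) (hc : Good c) :
    (eval (qstep M) c).Dom ↔ (eval (qstep' M) c).Dom := by
  constructor
  · intro hd
    rw [Part.dom_iff_mem] at hd
    obtain ⟨b, hb⟩ := hd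
    refine evalInduction (C := fun a => (eval (qstep' M) a).Dom) hb ?_
    intro a _ ih
    rcases h : qstep' M a with _ | a'
    · rw [Part.dom_iff_mem]
      exact ⟨a, mem_eval.2 ⟨Relation.ReflTransGen.refl, h⟩⟩
    · have h1 := ih a' (qstep'_some M _ _ h)
      rw [reaches_eval (f := qstep' M) (a := a) (b := a') (Relation.ReflTransGen.single h)]
      exact h1
  · intro hd
    rw [Part.dom_iff_mem] at hd
    obtain ⟨b, hb⟩ := hd
    obtain ⟨hr, hn⟩ := mem_eval.1 hb
    have hr' := reaches_of_reaches' M c b hr
    have hg := good_reaches M c b hc hr'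
    rw [Part.dom_iff_mem]
    unfold qstep' at hn
    split_ifs at hn with hh
    · -- halting configuration
      refine ⟨(none, [J, K]), mem_eval.2 ⟨hr'.trans ?_, terminal_JK M⟩⟩
      rcases b with ⟨_ | q, l⟩
      · simp [haltingConf] at hh
      rcases q with p | ⟨s, q'⟩ | _
      · rcases l with _ | ⟨a, w⟩
        · simp [haltingConf] at hh
        cases a with
        | hd q s =>
          simp only [haltingConf, Option.isNone_iff_eq_none] at hh
          obtain ⟨-, hK, hp⟩ := hg
          have hKw : K ∉ w := fun hh => hK (by simp [hh])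
          refine Relation.ReflTransGen.head (b := (some E1, w ++ [J, K])) ?_ ?_
          · simp [qstep, tau, tauHead, hh]
          · have := reaches_E1_terminal M (w ++ [J]) 0 (by simp [hKw]) (by simp)
            simpa [Reaches, Option.mem_def] using this
        | _ => simp [haltingConf] at hh
      · simp [haltingConf] at hh
      · simp [haltingConf] at hh
    · exact ⟨b, mem_eval.2 ⟨hr', hn⟩⟩

/-- The initial configuration for a nonempty input word. -/
def initConf (s : Γ) (R : List Γ) : Conf Γ Λ := (some (hold mark), hd default s :: R.map pl)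

theorem good_init (s : Γ) (R : List Γ) : Good (initConf s R : Conf Γ Λ) := by
  simp [initConf, Good]

theorem rel_init (s : Γ) (R : List Γ) :
    Rel (TM0.init (s :: R) : TM0.Cfg Γ Λ) (initConf s R) := by
  refine ⟨[], R, s, mark, R.map pl, ?_, rfl, by simp⟩
  simp only [TM0.init, Tape.mk₁, Tape.mk₂, ListBlank.cons_mk]

theorem queue_eval_dom_iff (M : TM0.Machine Γ Λ) (s : Γ) (R : List Γ) :
    (eval (qstep M) (initConf s R)).Dom ↔ (TM0.eval M (s :: R)).Dom := by
  rw [eval_dom_iff M _ (good_init s R), tr_eval_dom (respects M) (rel_init s R)]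
  simp [TM0.eval]

end Pool.Agent.Lib.PD7c5de
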