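import Mathlib
import Pool.Agent.Lib.PD7c5de.Gen
import Pool.Agent.Lib.PD7c5de.Queue

set_option autoImplicit false

namespace Pool.Agent.Lib.PD7c5de

open StateTransition Turing

open Pool.Agent.Lib.PD7c5de.Sym Pool.Agent.Lib.PD7c5de.St

variable {Γ Λ : Type} [Inhabited Γ] [Inhabited Λ]

/-- Letters of the instance. -/
inductive Ltr (Γ Λ : Type)
  | start : Ltr Γ Λ
  | er : Ltr Γ Λ
  | fin : Ltr Γ Λ
  | tr (q : St Γ Λ) (a a' : Sym Γ Λ) : Ltr Γ Λ

/-- Numbering data: an injective numbering of the symbols and injective phases of the states. -/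
structure PhData (Γ Λ : Type) where
  num : Sym Γ Λ → ℕ
  ph : Option (St Γ Λ) → ℕ
  m : ℕ
  num_inj : Function.Injective num
  ph_inj : Function.Injective ph
  ph_pos : ∀ q, 1 ≤ ph q
  ph_lt : ∀ q, ph q < m

variable (N : PhData Γ Λ)

def PhData.sy (a : Sym Γ Λ) (k : ℕ) : ℕ := Nat.pair (N.num a) k + 1

def PhData.code (a : Sym Γ Λ) : List ℕ := (List.range N.m).map (N.sy a)

def PhData.tl (q : Option (St Γ Λ)) (a : Sym Γ Λ) : List ℕ := (N.code a).drop (N.ph q)

def PhData.hp (q : Option (St Γ Λ)) (a : Sym Γ Λ) : List ℕ := (N.code a).take (N.ph q)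

omit [Inhabited Γ] [Inhabited Λ] in
theorem PhData.hp_append_tl (q : Option (St Γ Λ)) (a : Sym Γ Λ) :
    N.hp q a ++ N.tl q a = N.code a := List.take_append_drop _ _

omit [Inhabited Γ] [Inhabited Λ] in
theorem PhData.sy_inj {a b : Sym Γ Λ} {k l : ℕ} (h : N.sy a k = N.sy b l) : a = b ∧ k = l := by
  unfold PhData.sy at h
  have h1 : Nat.pair (N.num a) k = Nat.pair (N.num b) l := by omega
  rw [Nat.pair_eq_pair] at h1
  exact ⟨N.num_inj h1.1, h1.2⟩

omit [Inhabited Γ] [Inhabited Λ] in
theorem PhData.tl_eq (q : Option (St Γ Λ)) (a : Sym Γ Λ) :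
    ∃ r, N.tl q a = N.sy a (N.ph q) :: r := by
  unfold PhData.tl PhData.code
  have h := N.ph_lt q
  refine ⟨((List.range N.m).map (N.sy a)).drop (N.ph q + 1), ?_⟩
  rw [List.drop_eq_getElem_cons (by simpa using h)]
  simp

omit [Inhabited Γ] [Inhabited Λ] in
theorem PhData.m_pos : 0 < N.m := by
  have := N.ph_lt none
  omega

omit [Inhabited Γ] [Inhabited Λ] in
theorem PhData.code_eq (a : Sym Γ Λ) : ∃ r, N.code a = N.sy a 0 :: r := by
  unfold PhData.code
  have h := N.m_pos
  obtain ⟨k, hk⟩ : ∃ k, N.m = k + 1 := ⟨N.m - 1, by omega⟩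
  rw [hk, List.range_succ_eq_map]
  exact ⟨_, rfl⟩

omit [Inhabited Γ] [Inhabited Λ] in
theorem PhData.hp_eq (q : Option (St Γ Λ)) (a : Sym Γ Λ) : ∃ r, N.hp q a = N.sy a 0 :: r := by
  obtain ⟨r, hr⟩ := N.code_eq a
  unfold PhData.hp
  have h := N.ph_pos q
  obtain ⟨k, hk⟩ : ∃ k, N.ph q = k + 1 := ⟨N.ph q - 1, by omega⟩
  rw [hr, hk]
  exact ⟨_, rfl⟩

omit [Inhabited Γ] [Inhabited Λ] in
theorem PhData.flatMap_code_eq (l : List (Sym Γ Λ)) (hl : l ≠ []) :
    ∃ b r, l.flatMap N.code = N.sy b 0 :: r := by
  rcases l with _ | ⟨b, l⟩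
  · exact absurd rfl hl
  · obtain ⟨r, hr⟩ := N.code_eq b
    exact ⟨b, r ++ l.flatMap N.code, by simp [hr]⟩

/-- First morphism. -/
def PhData.h (M : TM0.Machine Γ Λ) (s : Γ) : Ltr Γ Λ → List ℕ
  | Ltr.start => N.hp (some (hold mark)) (hd default s)
  | Ltr.er => N.tl none J ++ N.hp none J
  | Ltr.fin => N.tl none J ++ N.code K ++ [0]
  | Ltr.tr q a a' => N.tl (some q) a ++ N.hp (tau M q a).2 a'

/-- Second morphism. -/
def PhData.g (M : TM0.Machine Γ Λ) (s : Γ) (R : List Γ) : Ltr Γ Λ → List ℕ
  | Ltr.start => N.code (hd default s) ++ (R.map pl).flatMap N.code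
  | Ltr.er => []
  | Ltr.fin => [0]
  | Ltr.tr q a _ => ((tau M q a).1).flatMap N.code

/-- Overflow of a configuration. -/
def PhData.ov : Conf Γ Λ → List ℕ
  | (_, []) => []
  | (q, a :: w) => N.tl q a ++ w.flatMap N.code

/-- The letter applicable at a configuration. -/
def ltr (M : TM0.Machine Γ Λ) : Conf Γ Λ → Ltr Γ Λ
  | (some q, a :: w) =>
    match w ++ (tau M q a).1 with
    | [] => Ltr.fin
    | a' :: _ => Ltr.tr q a a'
  | (none, _ :: K :: _) => Ltr.fin
  | (none, _) => Ltr.er
  | (some _, []) => Ltr.fin

theorem runData (M : TM0.Machine Γ Λ) (s : Γ) (R : List Γ) :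
    RunData (N.h M s) (N.g M s R) Ltr.start Ltr.er (qstep M) N.ov (ltr M) (initConf s R)
      Good where
  good0 := good_init s R
  ov_ne := by
    rintro ⟨q, l⟩ hg
    rcases l with _ | ⟨a, w⟩
    · rcases q with _ | (p | ⟨s, q'⟩ | _) <;> simp [Good] at hg
    · obtain ⟨r, hr⟩ := N.tl_eq q a
      simp [PhData.ov, hr]
  step_good := fun c c' => good_step M c c'
  step_ov := by
    rintro ⟨q, l⟩ c' hg hc
    rcases q with _ | q
    · obtain ⟨k, rfl⟩ := hg
      rcases k with _ | k
      · simp [qstep] at hc
      · simp only [List.replicate_succ, List.cons_append, qstep, Option.some.injEq] at hc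
        subst hc
        simp only [List.replicate_succ, List.cons_append, ltr, PhData.h, PhData.g, PhData.ov,
          List.append_nil, List.append_assoc, List.flatMap_cons]
        rw [← List.append_assoc (N.hp none J), N.hp_append_tl]
    · rcases l with _ | ⟨a, w⟩
      · simp [qstep] at hc
      simp only [qstep, Option.some.injEq] at hc
      subst hc
      have hne : w ++ (tau M q a).1 ≠ [] := by
        simp [tau_ne_nil]
      rcases hw : w ++ (tau M q a).1 with _ | ⟨a', w'⟩
      · exact absurd hw hne
      simp only [ltr, hw, PhData.h, PhData.g, PhData.ov, List.append_assoc]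
      rw [← List.append_assoc (N.hp _ a'), N.hp_append_tl, ← List.flatMap_append, hw]
      simp
  step_none := by
    intro c hg hc
    have := qstep_eq_none M c hg hc
    subst this
    simp [ltr, PhData.h, PhData.g, PhData.ov]
  uniq := by
    rintro ⟨q, l⟩ x hg hx
    rcases q with _ | q
    · obtain ⟨k, rfl⟩ := hg
      cases x with
      | start =>
        obtain ⟨r, hr⟩ := N.hp_eq (some (hold mark)) (hd default s)
        obtain ⟨r2, hr2⟩ := N.tl_eq none J
        simp only [PhData.h, PhData.ov, hr, hr2, List.cons_append]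
        apply not_cmp_of_head
        intro h
        have := (N.sy_inj h).2
        have h2 := N.ph_pos none
        omega
      | tr q' b b' =>
        obtain ⟨r, hr⟩ := N.tl_eq (some q') b
        obtain ⟨r2, hr2⟩ := N.tl_eq none J
        simp only [PhData.h, PhData.ov, hr, hr2, List.cons_append]
        apply not_cmp_of_head
        intro h
        have := (N.sy_inj h).2
        have h2 := N.ph_inj this
        simp at h2
      | er =>
        rcases k with _ | k
        · simp only [PhData.h, PhData.g, PhData.ov, List.replicate_zero, List.nil_append,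
            List.flatMap_cons, List.flatMap_nil, List.append_nil, Cmp.append_left_iff]
          obtain ⟨r, hr⟩ := N.hp_eq none J
          obtain ⟨r2, hr2⟩ := N.code_eq K
          rw [hr, hr2]
          apply not_cmp_of_head
          intro h
          have := (N.sy_inj h).1
          simp at this
        · simp [ltr, List.replicate_succ] at hx
      | fin =>
        rcases k with _ | k
        · simp [ltr] at hx
        · simp only [PhData.h, PhData.g, PhData.ov, List.replicate_succ, List.cons_append,
            List.flatMap_cons, List.append_assoc, Cmp.append_left_iff]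
          obtain ⟨r, hr⟩ := N.code_eq J
          obtain ⟨r2, hr2⟩ := N.code_eq K
          rw [hr, hr2]
          apply not_cmp_of_head
          intro h
          have := (N.sy_inj h).1
          simp at this
    · rcases l with _ | ⟨a, w⟩
      · exfalso
        rcases q with (p | ⟨s, q'⟩ | _) <;> simp [Good] at hg
      obtain ⟨r2, hr2⟩ := N.tl_eq (some q) a
      cases x with
      | start =>
        obtain ⟨r, hr⟩ := N.hp_eq (some (hold mark)) (hd default s)
        simp only [PhData.h, PhData.ov, hr, hr2, List.cons_append]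
        apply not_cmp_of_head
        intro h
        have := (N.sy_inj h).2
        have h2 := N.ph_pos (some q)
        omega
      | er =>
        obtain ⟨r, hr⟩ := N.tl_eq none J
        simp only [PhData.h, PhData.ov, hr, hr2, List.cons_append]
        apply not_cmp_of_head
        intro h
        have h2 := N.ph_inj (N.sy_inj h).2
        simp at h2
      | fin =>
        obtain ⟨r, hr⟩ := N.tl_eq none J
        simp only [PhData.h, PhData.ov, hr, hr2, List.cons_append]
        apply not_cmp_of_head
        intro h
        have h2 := N.ph_inj (N.sy_inj h).2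
        simp at h2
      | tr q' b b' =>
        by_cases hqb : b = a ∧ q' = q
        · obtain ⟨rfl, rfl⟩ := hqb
          have hne : w ++ (tau M q' b).1 ≠ [] := by
            simp [tau_ne_nil]
          rcases hw : w ++ (tau M q' b).1 with _ | ⟨a', w'⟩
          · exact absurd hw hne
          simp only [ltr, hw] at hx
          have hba : b' ≠ a' := by
            rintro rfl
            exact hx rfl
          simp only [PhData.h, PhData.g, PhData.ov, List.append_assoc, Cmp.append_left_iff]
          rw [← List.flatMap_append, hw, List.flatMap_cons]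
          obtain ⟨r, hr⟩ := N.hp_eq (tau M q' b).2 b'
          obtain ⟨r3, hr3⟩ := N.code_eq a'
          rw [hr, hr3, List.cons_append]
          apply not_cmp_of_head
          intro h
          exact hba (N.sy_inj h).1
        · obtain ⟨r, hr⟩ := N.tl_eq (some q') b
          simp only [PhData.h, PhData.ov, hr, hr2, List.cons_append]
          apply not_cmp_of_head
          intro h
          apply hqb
          have h3 := N.sy_inj h
          have h2 := N.ph_inj h3.2
          simp only [Option.some.injEq] at h2
          exact ⟨h3.1, h2⟩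
  start := by
    simp only [PhData.g, PhData.h, PhData.ov, initConf]
    rw [← List.append_assoc, N.hp_append_tl]
  start_ne := by
    intro x hx hx'
    cases x with
    | start => exact absurd rfl hx
    | er => exact absurd rfl hx'
    | fin =>
      obtain ⟨r, hr⟩ := N.tl_eq none J
      simp only [PhData.h, PhData.g, hr, List.cons_append]
      apply not_cmp_of_head
      simp [PhData.sy]
    | tr q a a' =>
      obtain ⟨r, hr⟩ := N.tl_eq (some q) a
      obtain ⟨b, r2, hr2⟩ := N.flatMap_code_eq (tau M q a).1 (tau_ne_nil M q a)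
      simp only [PhData.h, PhData.g, hr, hr2, List.cons_append]
      apply not_cmp_of_head
      intro h
      have := (N.sy_inj h).2
      have h2 := N.ph_pos (some q)
      omega
  ge := rfl
  he := by
    obtain ⟨r, hr⟩ := N.tl_eq none J
    simp [PhData.h, hr]
  ne_e := by
    intro x hx w
    obtain ⟨r, hr⟩ := N.tl_eq none J
    have h2 := N.ph_pos none
    cases x with
    | start =>
      obtain ⟨r2, hr2⟩ := N.code_eq (hd default s : Sym Γ Λ)
      simp only [PhData.h, PhData.g, hr, hr2, List.cons_append]
      apply not_cmp_of_head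
      intro h
      have := (N.sy_inj h).2
      omega
    | er => exact absurd rfl hx
    | fin =>
      simp only [PhData.h, PhData.g, hr, List.cons_append]
      apply not_cmp_of_head
      simp [PhData.sy]
    | tr q a a' =>
      obtain ⟨b, r2, hr2⟩ := N.flatMap_code_eq (tau M q a).1 (tau_ne_nil M q a)
      simp only [PhData.h, PhData.g, hr, hr2, List.cons_append]
      apply not_cmp_of_head
      intro h
      have := (N.sy_inj h).2
      omega

end Pool.Agent.Lib.PD7c5de
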