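import Mathlib
import Pool.Agent.Lib.PD7c5de.Enc
import Pool.Agent.Lib.PD7c5de.TM

set_option autoImplicit false

namespace Pool.Agent.Lib.PD7c5de

open StateTransition Turing

open Pool.Agent.Lib.PD7c5de.Sym Pool.Agent.Lib.PD7c5de.St

variable {Γ Λ : Type} [Inhabited Γ] [Inhabited Λ]

instance finiteSym [Finite Γ] [Finite Λ] : Finite (Sym Γ Λ) := by
  let f : Sym Γ Λ → (Γ ⊕ (Λ × Γ)) ⊕ Fin 3 := fun x => match x with
    | pl s => Sum.inl (Sum.inl s)
    | hd q s => Sum.inl (Sum.inr (q, s))
    | mark => Sum.inr 0
    | J => Sum.inr 1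
    | K => Sum.inr 2
  refine Finite.of_injective f ?_
  intro x y h
  cases x <;> cases y <;> simp_all [f]

instance finiteSt [Finite Γ] [Finite Λ] : Finite (St Γ Λ) := by
  let f : St Γ Λ → (Sym Γ Λ ⊕ (Γ × Λ)) ⊕ Fin 1 := fun x => match x with
    | hold p => Sum.inl (Sum.inl p)
    | mr s q => Sum.inl (Sum.inr (s, q))
    | E1 => Sum.inr 0
  refine Finite.of_injective f ?_
  intro x y h
  cases x <;> cases y <;> simp_all [f]

instance finiteLtr [Finite Γ] [Finite Λ] : Finite (Ltr Γ Λ) := by
  let f : Ltr Γ Λ → (St Γ Λ × Sym Γ Λ × Sym Γ Λ) ⊕ Fin 3 := fun x => match x with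
    | Ltr.tr q a a' => Sum.inl (q, a, a')
    | Ltr.start => Sum.inr 0
    | Ltr.er => Sum.inr 1
    | Ltr.fin => Sum.inr 2
  refine Finite.of_injective f ?_
  intro x y h
  cases x <;> cases y <;> simp_all [f]

omit [Inhabited Γ] [Inhabited Λ] in
theorem exists_phData [Finite Γ] [Finite Λ] : Nonempty (PhData Γ Λ) := by
  obtain ⟨n, ⟨e⟩⟩ := Finite.exists_equiv_fin (Sym Γ Λ)
  obtain ⟨m, ⟨d⟩⟩ := Finite.exists_equiv_fin (Option (St Γ Λ))
  refine ⟨⟨fun a => e a, fun q => (d q : ℕ) + 1, m + 1, ?_, ?_, ?_, ?_⟩⟩
  · intro a b h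
    exact e.injective (Fin.val_injective h)
  · intro a b h
    simp only [Nat.add_right_cancel_iff] at h
    exact d.injective (Fin.val_injective h)
  · intro q
    omega
  · intro q
    have := (d q).2
    omega

section lists

variable {X : Type} (ls : List X) (x0 : X)

theorem getD_map_of_lt (h : X → List ℕ) (i : ℕ) (hi : i < ls.length) :
    (ls.map h).getD i [] = h (ls.getD i x0) := by
  simp [List.getD, hi]

theorem flatMap_getD (h : X → List ℕ) (u : List ℕ) (hu : ∀ i ∈ u, i < ls.length) :
    u.flatMap (fun i => (ls.map h).getD i []) = (u.map (fun i => ls.getD i x0)).flatMap h := by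
  induction u with
  | nil => rfl
  | cons i u ih =>
    simp only [List.flatMap_cons, List.map_cons]
    rw [ih (fun j hj => hu j (by simp [hj])), getD_map_of_lt ls x0 h i (hu i (by simp))]

theorem getD_ne (hn : ls.Nodup) (a b : ℕ) (ha : a < ls.length) (hb : b < ls.length)
    (hab : a ≠ b) : ls.getD a x0 ≠ ls.getD b x0 := by
  rw [List.getD_eq_getElem _ _ ha, List.getD_eq_getElem _ _ hb]
  intro h
  exact hab ((List.Nodup.getElem_inj_iff hn).1 h)

include x0 in
theorem solv_iff (hall : ∀ x : X, x ∈ ls) (h g : X → List ℕ) :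
    (∃ x : List ℕ, x ≠ [] ∧ (∀ i ∈ x, i < (ls.map h).length) ∧
      x.flatMap (fun i => (ls.map h).getD i []) = x.flatMap (fun i => (ls.map g).getD i [])) ↔
    ∃ u : List X, u ≠ [] ∧ u.flatMap h = u.flatMap g := by
  classical
  constructor
  · rintro ⟨x, hx, hlt, he⟩
    have hlt' : ∀ i ∈ x, i < ls.length := by simpa using hlt
    rw [flatMap_getD ls x0 h x hlt', flatMap_getD ls x0 g x hlt'] at he
    exact ⟨x.map (fun i => ls.getD i x0), by simpa using hx, he⟩
  · rintro ⟨u, hu, he⟩
    have hlt' : ∀ i ∈ u.map (fun x => ls.idxOf x), i < ls.length := by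
      intro i hi
      simp only [List.mem_map] at hi
      obtain ⟨x, -, rfl⟩ := hi
      exact List.idxOf_lt_length_iff.2 (hall x)
    have hback : (u.map (fun x => ls.idxOf x)).map (fun i => ls.getD i x0) = u := by
      rw [List.map_map]
      conv_rhs => rw [← List.map_id u]
      apply List.map_congr_left
      intro x _
      have hxl : ls.idxOf x < ls.length := List.idxOf_lt_length_iff.2 (hall x)
      simp only [Function.comp]
      rw [List.getD_eq_getElem _ _ hxl]
      simp
    refine ⟨u.map (fun x => ls.idxOf x), by simpa using hu, by simpa using hlt', ?_⟩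
    rw [flatMap_getD ls x0 h _ hlt', flatMap_getD ls x0 g _ hlt', hback, he]

end lists

theorem final :
    ¬ (∃ P : List (List ℕ) × List (List ℕ) → Prop, ComputablePred P ∧
      ∀ H G : List (List ℕ), H.length = G.length →
        (∀ u : List ℕ, (∀ i ∈ u, i < H.length) →
          ∀ a b : ℕ, a < H.length → b < H.length → a ≠ b →
            ((u ++ [a]).flatMap (fun i => H.getD i []) <+: (u ++ [a]).flatMap (fun i => G.getD i []) ∨
              (u ++ [a]).flatMap (fun i => G.getD i []) <+: (u ++ [a]).flatMap (fun i => H.getD i [])) →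
            ((u ++ [b]).flatMap (fun i => H.getD i []) <+: (u ++ [b]).flatMap (fun i => G.getD i []) ∨
              (u ++ [b]).flatMap (fun i => G.getD i []) <+: (u ++ [b]).flatMap (fun i => H.getD i [])) →
            u.flatMap (fun i => H.getD i []) = u.flatMap (fun i => G.getD i [])) →
        (P (H, G) ↔ ∃ x : List ℕ, x ≠ [] ∧ (∀ i ∈ x, i < H.length) ∧
          x.flatMap (fun i => H.getD i []) = x.flatMap (fun i => G.getD i []))) := by
  classical
  rintro ⟨P, hP, hPc⟩
  obtain ⟨Γ, Λ, iΓ, iΛ, fΓ, fΛ, M, s, F, hF⟩ := exists_tm0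
  obtain ⟨N⟩ := @exists_phData Γ Λ fΓ fΛ
  haveI : Fintype (Ltr Γ Λ) := Fintype.ofFinite _
  -- enumeration of letters
  let rest : List (Ltr Γ Λ) := (Finset.univ.erase Ltr.start).toList
  let ls : List (Ltr Γ Λ) := Ltr.start :: rest
  have hall : ∀ x : Ltr Γ Λ, x ∈ ls := by
    intro x
    by_cases hx : x = Ltr.start
    · simp [ls, hx]
    · simp [ls, rest, hx]
  have hnd : ls.Nodup := by
    simp [ls, rest, Finset.nodup_toList]
  let R : ℕ → List Γ := fun n => (bitsB n).reverse.map F
  let H : List (List ℕ) := ls.map (N.h M s)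
  let G : ℕ → List (List ℕ) := fun n => ls.map (N.g M s (R n))
  have D : ∀ n, RunData (N.h M s) (N.g M s (R n)) Ltr.start Ltr.er (qstep M) N.ov (ltr M)
      (initConf s (R n)) Good := fun n => runData N M s (R n)
  have key : ∀ n, P (H, G n) ↔ (univF n).Dom := by
    intro n
    rw [hPc H (G n) (by simp [H, G]), ← hF n]
    · rw [solv_iff ls Ltr.start hall (N.h M s) (N.g M s (R n)), (D n).solvable_iff,
        queue_eval_dom_iff]
    · intro u hu a b ha hb hab hca hcb
      have hu' : ∀ i ∈ u, i < ls.length := by simpa [H] using hu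
      have ha' : a < ls.length := by simpa [H] using ha
      have hb' : b < ls.length := by simpa [H] using hb
      have hua : ∀ i ∈ u ++ [a], i < ls.length := by
        intro i hi
        rcases List.mem_append.1 hi with hi | hi
        · exact hu' i hi
        · rw [List.mem_singleton.1 hi]; exact ha'
      have hub : ∀ i ∈ u ++ [b], i < ls.length := by
        intro i hi
        rcases List.mem_append.1 hi with hi | hi
        · exact hu' i hi
        · rw [List.mem_singleton.1 hi]; exact hb'
      simp only [H, G] at hca hcb ⊢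
      rw [flatMap_getD ls Ltr.start _ _ hua, flatMap_getD ls Ltr.start _ _ hua] at hca
      rw [flatMap_getD ls Ltr.start _ _ hub, flatMap_getD ls Ltr.start _ _ hub] at hcb
      rw [flatMap_getD ls Ltr.start _ _ hu', flatMap_getD ls Ltr.start _ _ hu']
      simp only [List.map_append, List.map_cons, List.map_nil] at hca hcb
      exact (D n).unique (u.map (fun i => ls.getD i Ltr.start)) (ls.getD a Ltr.start)
        (ls.getD b Ltr.start) (getD_ne ls Ltr.start hnd a b ha' hb' hab) hca hcb
  -- computability of the reduction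
  have hG : ∀ n, G n = (N.code (hd default s) ++
      ((bitsB n).reverse).flatMap (fun b => N.code (pl (F b)))) :: rest.map (N.g M s []) := by
    intro n
    simp only [G, ls, List.map_cons]
    congr 1
    · simp only [PhData.g, R]
      rw [List.map_map, List.flatMap_map]
      rfl
    · apply List.map_congr_left
      intro x hx
      have hx' : x ≠ Ltr.start := by
        simp only [rest, Finset.mem_toList, Finset.mem_erase] at hx
        exact hx.1
      cases x with
      | start => exact absurd rfl hx'
      | _ => rfl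
  have hcomp : Computable (fun n : ℕ => (H, G n)) := by
    refine Computable.pair (Computable.const H) ?_
    have : Primrec (fun n : ℕ => (N.code (hd default s) ++
      ((bitsB n).reverse).flatMap (fun b => N.code (pl (F b)))) :: rest.map (N.g M s [])) := by
      refine Primrec.list_cons.comp ?_ (Primrec.const _)
      refine Primrec.list_append.comp (Primrec.const _) ?_
      refine Primrec.list_flatMap (Primrec.list_reverse.comp primrec_bitsB) ?_
      exact (Primrec.dom_finite (fun b : Bool => N.code (pl (F b)))).comp Primrec.snd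
    exact this.to_comp.of_eq (fun n => (hG n).symm)
  obtain ⟨f, hf, he⟩ := ComputablePred.computable_iff.1 hP
  apply univF_undecidable
  refine ComputablePred.computable_iff.2 ⟨fun n => f (H, G n), hf.comp hcomp, ?_⟩
  funext n
  have h1 := key n
  rw [he] at h1
  exact propext h1.symm

end Pool.Agent.Lib.PD7c5de
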